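import Pool.Agent.H64.CB.Targets

/-!
# The sign conjecture and the Lefschetz standard conjecture: module TRC (the trace argument)
-/

set_option autoImplicit false

open Matrix Pool.Agent.H64.CB
open scoped Kronecker

namespace Pool.Agent.H42.CB

/-- a non-zero idempotent has a non-zero trace -/
lemma trace_ne {K : Type} [Field K] [CharZero K] {m : ℕ} {e : Matrix (Fin m) (Fin m) K}
    (h : e * e = e) (h0 : e ≠ 0) : e.trace ≠ 0 := by
  intro ht
  apply h0
  have h1 : IsIdempotentElem (Matrix.toLin' e) := by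
    change Matrix.toLin' e * Matrix.toLin' e = Matrix.toLin' e
    rw [Module.End.mul_eq_comp, ← Matrix.toLin'_mul, h]
  have h2 := LinearMap.IsIdempotentElem.eq_zero_of_trace_eq_zero h1
    (by rw [Matrix.trace_toLin'_eq, ht])
  exact (LinearEquiv.map_eq_zero_iff _).1 h2

section Sums

variable {K : Type} [Field K] {m : ℕ}

lemma trace_kron_right (D : Matrix (Fin m × Fin m) (Fin m × Fin m) K)
    (X : Matrix (Fin m) (Fin m) K) :
    (D * (X ⊗ₖ (1 : Matrix (Fin m) (Fin m) K))).trace =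
      ∑ b, ∑ a, (∑ y, D (b, y) (a, y)) * X a b := by
  simp only [Matrix.trace, Matrix.diag_apply, Matrix.mul_apply, Fintype.sum_prod_type,
    Matrix.kroneckerMap_apply, Matrix.one_apply, Finset.sum_mul]
  refine Finset.sum_congr rfl fun b _ => ?_
  rw [Finset.sum_comm]
  refine Finset.sum_congr rfl fun a _ => ?_
  refine Finset.sum_congr rfl fun y _ => ?_
  simp

lemma trace_kron_left (D : Matrix (Fin m × Fin m) (Fin m × Fin m) K)
    (X : Matrix (Fin m) (Fin m) K) :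
    (D * ((1 : Matrix (Fin m) (Fin m) K) ⊗ₖ X)).trace =
      ∑ b, ∑ a, (∑ x, D (x, b) (x, a)) * X a b := by
  simp only [Matrix.trace, Matrix.diag_apply, Matrix.mul_apply, Fintype.sum_prod_type,
    Matrix.kroneckerMap_apply, Matrix.one_apply, Finset.sum_mul]
  rw [Finset.sum_comm]
  refine Finset.sum_congr rfl fun b _ => ?_
  have h1 : ∀ x : Fin m, ∑ x' : Fin m, ∑ a : Fin m, D (x, b) (x', a) *
      ((if x' = x then 1 else 0) * X a b) = ∑ a : Fin m, D (x, b) (x, a) * X a b := by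
    intro x
    rw [Finset.sum_comm]
    refine Finset.sum_congr rfl fun a _ => ?_
    simp
  rw [Finset.sum_congr rfl fun x _ => h1 x, Finset.sum_comm]

lemma trace_two (R X : Matrix (Fin m) (Fin m) K) :
    (R * X).trace = ∑ b, ∑ a, R b a * X a b := by
  simp only [Matrix.trace, Matrix.diag_apply, Matrix.mul_apply]

lemma mul_diag_right {D : Matrix (Fin m × Fin m) (Fin m × Fin m) K} {d : Fin m → K}
    (h : D * ((1 : Matrix (Fin m) (Fin m) K) ⊗ₖ Matrix.diagonal d) = D)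
    (p : Fin m × Fin m) (a y : Fin m) : D p (a, y) = D p (a, y) * d y := by
  have h1 := congrFun (congrFun h p) (a, y)
  rw [← Matrix.diagonal_one, Matrix.diagonal_kronecker_diagonal, Matrix.mul_diagonal] at h1
  simpa using h1.symm

lemma mul_diag_left {D : Matrix (Fin m × Fin m) (Fin m × Fin m) K} {d : Fin m → K}
    (h : D * (Matrix.diagonal d ⊗ₖ (1 : Matrix (Fin m) (Fin m) K)) = D)
    (p : Fin m × Fin m) (a y : Fin m) : D p (a, y) = D p (a, y) * d a := by
  have h1 := congrFun (congrFun h p) (a, y)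
  rw [← Matrix.diagonal_one, Matrix.diagonal_kronecker_diagonal, Matrix.mul_diagonal] at h1
  simpa using h1.symm

end Sums

theorem pf_TRC : T_TRC := by
  intro K _ _ W Z L hL i c hc hinv e he hee hne hpe hep
  obtain ⟨P, hP⟩ : ∃ P, P = W.pr Z Z := ⟨_, rfl⟩
  -- external products
  obtain ⟨kr, hkr⟩ : ∃ kr : Matrix (Fin (W.rk Z)) (Fin (W.rk Z)) K →
      Matrix (Fin (W.rk Z)) (Fin (W.rk Z)) K →
      Matrix (Fin (W.rk (W.prod Z Z))) (Fin (W.rk (W.prod Z Z))) K,
      kr = fun f g => (f ⊗ₖ g).submatrix P.symm P.symm := ⟨_, rfl⟩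
  have hkr1 : ∀ f g, kr f g = Matrix.of fun b a =>
      f ((W.pr Z Z).symm b).1 ((W.pr Z Z).symm a).1 *
        g ((W.pr Z Z).symm b).2 ((W.pr Z Z).symm a).2 := by
    intro f g
    rw [hkr, hP]
    rfl
  have hkr2 : ∀ f g, (kr f g).submatrix P P = f ⊗ₖ g := by
    intro f g
    rw [hkr]
    ext a b
    simp
  have hsub : ∀ A B : Matrix (Fin (W.rk (W.prod Z Z))) (Fin (W.rk (W.prod Z Z))) K,
      (A * B).submatrix P P = A.submatrix P P * B.submatrix P P := fun A B => by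
    rw [Matrix.submatrix_mul_equiv]
  have hsq : (W.sq Z L).submatrix P P = L ⊗ₖ 1 + 1 ⊗ₖ L := by
    have h1 : W.sq Z L = kr L 1 + kr 1 L := by
      rw [hkr1, hkr1]
      rfl
    rw [h1, Matrix.submatrix_add, Pi.add_apply, Pi.add_apply, hkr2, hkr2]
  have he1 : ∀ b a, e b a ≠ 0 → W.deg Z b = i := by
    intro b a hba
    by_contra hcon
    apply hba
    have h1 := congrFun (congrFun hpe b) a
    unfold Theory.pj at h1
    rw [Matrix.diagonal_mul, if_neg hcon, zero_mul] at h1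
    exact h1.symm
  obtain ⟨N, hN⟩ : ∃ N, N = kr e e := ⟨_, rfl⟩
  have hNdeg : ∀ b a, N b a ≠ 0 → W.deg (W.prod Z Z) b = 2 * i := by
    intro b a hba
    rw [hN, hkr1, Matrix.of_apply] at hba
    obtain ⟨⟨b1, b2⟩, rfl⟩ := (W.pr Z Z).surjective b
    rw [Equiv.symm_apply_apply] at hba
    rw [W.deg_prod, he1 _ _ (left_ne_zero_of_mul hba), he1 _ _ (right_ne_zero_of_mul hba)]
    ring
  have hcN : c * (W.sq Z L * N) = N := by
    have h1 : ∀ w, c *ᵥ (W.sq Z L *ᵥ (N *ᵥ w)) = N *ᵥ w := by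
      intro w
      apply hinv
      intro b hb
      by_contra hcon
      apply hb
      change ∑ a, N b a * w a = 0
      refine Finset.sum_eq_zero fun a _ => ?_
      by_cases h0 : N b a = 0
      · rw [h0, zero_mul]
      · exact absurd (hNdeg b a h0) hcon
    ext b a
    have h2 := congrFun (h1 (Pi.single a 1)) b
    rw [Matrix.mulVec_mulVec, Matrix.mulVec_mulVec, Matrix.mulVec_single_one,
      Matrix.mulVec_single_one, mul_assoc] at h2
    exact h2
  obtain ⟨c', hc'⟩ : ∃ c', c' = c.submatrix P P := ⟨_, rfl⟩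
  have hmain : (e ⊗ₖ e) * c' * ((L ⊗ₖ 1 + 1 ⊗ₖ L) * (e ⊗ₖ e)) = e ⊗ₖ e := by
    have h1 := congrArg (fun M => (N * M).submatrix P P) hcN
    simp only [hsub] at h1
    rw [hsq, hN, hkr2, ← hc'] at h1
    rw [Matrix.mul_assoc, h1, ← Matrix.mul_kronecker_mul, hee]
  have htr : (e ⊗ₖ e).trace ≠ 0 := by
    rw [Matrix.trace_kronecker]
    exact mul_ne_zero (trace_ne hee hne) (trace_ne hee hne)
  have hN0 : N ∈ W.cyc (W.prod Z Z) (W.prod Z Z) 0 := by
    have := W.kron_mem Z Z Z Z 0 0 e he e he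
    rw [hN, hkr1]
    simpa using this
  have hNc : N * c ∈ W.cyc (W.prod Z Z) (W.prod Z Z) (-1) := by
    have := W.mul_mem _ _ _ (-1) 0 c hc N hN0
    simpa using this
  have hsplit : ((e ⊗ₖ e) * c' * ((1 ⊗ₖ e) * ((L * e) ⊗ₖ 1))).trace +
      ((e ⊗ₖ e) * c' * ((e ⊗ₖ 1) * (1 ⊗ₖ (L * e)))).trace ≠ 0 := by
    have h1 : (1 : Matrix (Fin (W.rk Z)) (Fin (W.rk Z)) K) ⊗ₖ e * ((L * e) ⊗ₖ 1) =
        (L ⊗ₖ 1) * (e ⊗ₖ e) := by
      rw [← Matrix.mul_kronecker_mul, ← Matrix.mul_kronecker_mul, one_mul, one_mul, mul_one]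
    have h2 : e ⊗ₖ (1 : Matrix (Fin (W.rk Z)) (Fin (W.rk Z)) K) * (1 ⊗ₖ (L * e)) =
        (1 ⊗ₖ L) * (e ⊗ₖ e) := by
      rw [← Matrix.mul_kronecker_mul, ← Matrix.mul_kronecker_mul, one_mul, one_mul, mul_one]
    rw [h1, h2, ← Matrix.trace_add, ← Matrix.mul_add, ← Matrix.add_mul, hmain]
    exact htr
  have hpj : W.pj Z i = Matrix.diagonal fun a => if W.deg Z a = i then (1 : K) else 0 := rfl
  by_cases hcase : ((e ⊗ₖ e) * c' * ((1 ⊗ₖ e) * ((L * e) ⊗ₖ 1))).trace = 0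
  · rw [hcase, zero_add] at hsplit
    obtain ⟨D, hD⟩ : ∃ D, D = N * c * kr e 1 := ⟨_, rfl⟩
    have hDm : D ∈ W.cyc (W.prod Z Z) (W.prod Z Z) (-1) := by
      have h1 := W.kron_mem Z Z Z Z 0 0 e he 1 (W.one_mem Z)
      have h2 := W.mul_mem _ _ _ (0 + 0) (-1) _ h1 _ hNc
      rw [hD, hkr1]
      simpa using h2
    have hD' : D.submatrix P P = (e ⊗ₖ e) * c' * (e ⊗ₖ 1) := by
      rw [hD, hsub, hsub, hN, hkr2, hkr2, hc']
    have hDp : D.submatrix P P * (W.pj Z i ⊗ₖ (1 : Matrix (Fin (W.rk Z)) (Fin (W.rk Z)) K)) =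
        D.submatrix P P := by
      rw [hD', Matrix.mul_assoc, ← Matrix.mul_kronecker_mul, hep, one_mul]
    rw [hpj] at hDp
    refine ⟨_, W.ptr_left Z Z Z (-1) D hDm, ?_⟩
    rw [Matrix.mul_assoc, trace_two]
    rw [← Matrix.mul_assoc, ← hD', trace_kron_left] at hsplit
    have h3 : ∀ b a, (∑ x, (-1 : K) ^ W.deg Z x * D (W.pr Z Z (x, b)) (W.pr Z Z (x, a))) =
        (-1) ^ i * ∑ x, D.submatrix P P (x, b) (x, a) := by
      intro b a
      rw [Finset.mul_sum]
      refine Finset.sum_congr rfl fun x _ => ?_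
      rw [Matrix.submatrix_apply, hP]
      by_cases hx : W.deg Z x = i
      · rw [hx]
      · have h4 := mul_diag_left hDp (x, b) x a
        rw [if_neg hx, mul_zero, Matrix.submatrix_apply, hP] at h4
        rw [h4, mul_zero, mul_zero]
    simp only [Matrix.of_apply, h3, mul_assoc]
    simp only [← Finset.mul_sum]
    exact mul_ne_zero (pow_ne_zero _ (neg_ne_zero.2 one_ne_zero)) hsplit
  · obtain ⟨D, hD⟩ : ∃ D, D = N * c * kr 1 e := ⟨_, rfl⟩
    have hDm : D ∈ W.cyc (W.prod Z Z) (W.prod Z Z) (-1) := by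
      have h1 := W.kron_mem Z Z Z Z 0 0 1 (W.one_mem Z) e he
      have h2 := W.mul_mem _ _ _ (0 + 0) (-1) _ h1 _ hNc
      rw [hD, hkr1]
      simpa using h2
    have hD' : D.submatrix P P = (e ⊗ₖ e) * c' * (1 ⊗ₖ e) := by
      rw [hD, hsub, hsub, hN, hkr2, hkr2, hc']
    have hDp : D.submatrix P P * ((1 : Matrix (Fin (W.rk Z)) (Fin (W.rk Z)) K) ⊗ₖ W.pj Z i) =
        D.submatrix P P := by
      rw [hD', Matrix.mul_assoc, ← Matrix.mul_kronecker_mul, hep, one_mul]
    rw [hpj] at hDp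
    refine ⟨_, W.ptr_right Z Z Z (-1) D hDm, ?_⟩
    rw [Matrix.mul_assoc, trace_two]
    rw [← Matrix.mul_assoc, ← hD', trace_kron_right] at hcase
    have h3 : ∀ b a, (∑ y, (-1 : K) ^ W.deg Z y * D (W.pr Z Z (b, y)) (W.pr Z Z (a, y))) =
        (-1) ^ i * ∑ y, D.submatrix P P (b, y) (a, y) := by
      intro b a
      rw [Finset.mul_sum]
      refine Finset.sum_congr rfl fun y _ => ?_
      rw [Matrix.submatrix_apply, hP]
      by_cases hx : W.deg Z y = i
      · rw [hx]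
      · have h4 := mul_diag_right hDp (b, y) a y
        rw [if_neg hx, mul_zero, Matrix.submatrix_apply, hP] at h4
        rw [h4, mul_zero, mul_zero]
    simp only [Matrix.of_apply, h3, mul_assoc]
    simp only [← Finset.mul_sum]
    exact mul_ne_zero (pow_ne_zero _ (neg_ne_zero.2 one_ne_zero)) hcase

end Pool.Agent.H42.CB
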