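import Pool.Agent.H64.CB.Targets

/-!
# The sign conjecture and the Lefschetz standard conjecture: module SPL (splitting)
-/

set_option autoImplicit false

open Matrix Pool.Agent.H64.CB

namespace Pool.Agent.H42.CB

lemma rank_lt {K : Type} [Field K] {m : ℕ} {E E2 e1 : Matrix (Fin m) (Fin m) K}
    (h2 : E2 * E = E) (h3 : E * e1 = 0)
    (h5 : E * E = E) (h6 : e1 ≠ 0) (h7 : E2 * e1 = e1) : E.rank < E2.rank := by
  unfold Matrix.rank
  refine Submodule.finrank_lt_finrank_of_lt (lt_of_le_of_ne ?_ ?_)
  · rintro _ ⟨v, rfl⟩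
    refine ⟨E *ᵥ v, ?_⟩
    rw [Matrix.mulVecLin_apply, Matrix.mulVecLin_apply, Matrix.mulVec_mulVec, h2]
  · intro heq
    apply h6
    ext i j
    have hmem : e1 *ᵥ Pi.single j 1 ∈ LinearMap.range E.mulVecLin := by
      rw [heq]
      refine ⟨e1 *ᵥ Pi.single j 1, ?_⟩
      rw [Matrix.mulVecLin_apply, Matrix.mulVec_mulVec, h7]
    obtain ⟨w, hw⟩ := hmem
    rw [Matrix.mulVecLin_apply] at hw
    have h8 : E *ᵥ (E *ᵥ w) = E *ᵥ w := by rw [Matrix.mulVec_mulVec, h5]
    rw [hw, Matrix.mulVec_mulVec, h3, Matrix.zero_mulVec] at h8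
    have h9 := congrFun h8 i
    rw [Matrix.mulVec_single_one] at h9
    exact h9.symm

theorem pf_SPL (hFIT : T_FIT) : T_SPL := by
  intro K _ _ m A u L hmul hu huu hL htr hal
  -- one step
  have step : ∀ α ∈ A (-1), u * α = α → (α * L * u) * (α * L * u) = α * L * u →
      α * L * u ≠ u → ∃ α' ∈ A (-1), u * α' = α' ∧
        (α' * L * u) * (α' * L * u) = α' * L * u ∧ (α * L * u).rank < (α' * L * u).rank := by
    intro α hα huα hidem hne
    obtain ⟨E, hE⟩ : ∃ E, E = α * L * u := ⟨_, rfl⟩
    rw [← hE] at hidem hne ⊢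
    have hEA : E ∈ A 0 := by
      have h1 := hmul 1 (-1) L hL α hα
      have h2 := hmul 0 (1 + -1) u hu _ h1
      rw [hE]
      simpa using h2
    have huE : u * E = E := by
      rw [hE, ← mul_assoc, ← mul_assoc, huα]
    have hEu : E * u = E := by
      rw [hE, mul_assoc, huu]
    obtain ⟨a1, ha1⟩ : ∃ a1, a1 = E * α := ⟨_, rfl⟩
    have ha1A : a1 ∈ A (-1) := by
      have := hmul (-1) 0 α hα E hEA
      rw [ha1]
      simpa using this
    have hua1 : u * a1 = a1 := by
      rw [ha1, ← mul_assoc, huE]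
    have ha1E : a1 * L * u = E := by
      rw [ha1, mul_assoc, mul_assoc, ← mul_assoc α, ← hE, hidem]
    obtain ⟨e, he⟩ : ∃ e, e = u - E := ⟨_, rfl⟩
    have heA : e ∈ A 0 := by
      rw [he]
      exact Submodule.sub_mem _ hu hEA
    have hee : e * e = e := by
      rw [he, sub_mul, mul_sub, mul_sub, huu, huE, hEu, hidem]
      abel
    have hue : u * e = e := by rw [he, mul_sub, huu, huE]
    have heu : e * u = e := by rw [he, sub_mul, huu, hEu]
    have heE : e * E = 0 := by rw [he, sub_mul, huE, hidem, sub_self]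
    have hEe : E * e = 0 := by rw [he, mul_sub, hEu, hidem, sub_self]
    have hene : e ≠ 0 := by
      intro h0
      apply hne
      rw [he, sub_eq_zero] at h0
      exact h0.symm
    obtain ⟨b, hb, htrb⟩ := hal e heA hee hene hue heu
    obtain ⟨p, hp⟩ : ∃ p, p = L * u * a1 := ⟨_, rfl⟩
    have hpA : p ∈ A 0 := by
      have h1 := hmul 0 1 u hu L hL
      have h2 := hmul (-1) (0 + 1) a1 ha1A _ h1
      rw [hp]
      simpa using h2
    have hpLu : p * L * u = L * E := by
      rw [hp, mul_assoc, mul_assoc, ← mul_assoc a1, ha1E, mul_assoc, huE]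
    obtain ⟨y, hy⟩ : ∃ y, y = e * b - e * b * p := ⟨_, rfl⟩
    have hebA : e * b ∈ A (-1) := by
      have := hmul (-1) 0 b hb e heA
      simpa using this
    have hyA : y ∈ A (-1) := by
      rw [hy]
      refine Submodule.sub_mem _ hebA ?_
      have := hmul 0 (-1) p hpA _ hebA
      simpa using this
    have huy : u * y = y := by
      rw [hy, mul_sub, ← mul_assoc, ← mul_assoc, ← mul_assoc, hue]
    obtain ⟨x, hx⟩ : ∃ x, x = y * L * u := ⟨_, rfl⟩
    have hxe : x = e * b * L * e := by
      rw [hx, hy, sub_mul, sub_mul, mul_assoc (e * b) p L, mul_assoc (e * b) (p * L) u, hpLu]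
      have h1 : e * b * L * e = e * b * L * u - e * b * L * E := by
        rw [← mul_sub, ← he]
      rw [h1]
      simp only [mul_assoc]
    have hxA : x ∈ A 0 := by
      have h1 := hmul 1 (-1) L hL y hyA
      have h2 := hmul 0 (1 + -1) u hu _ h1
      rw [hx]
      simpa using h2
    have hux : u * x = x := by
      rw [hxe, ← mul_assoc, ← mul_assoc, ← mul_assoc, hue]
    have hxu : x * u = x := by
      rw [hxe, mul_assoc, heu]
    have hEx : E * x = 0 := by
      rw [hxe, ← mul_assoc, ← mul_assoc, ← mul_assoc, hEe, zero_mul, zero_mul, zero_mul]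
    have hxE : x * E = 0 := by
      rw [hxe, mul_assoc, heE, mul_zero]
    have hxk : ∀ k : ℕ, x ^ (k + 1) ∈ A 0 ∧ u * x ^ (k + 1) = x ^ (k + 1) ∧
        x ^ (k + 1) * u = x ^ (k + 1) := by
      intro k
      induction k with
      | zero => rw [zero_add, pow_one]; exact ⟨hxA, hux, hxu⟩
      | succ k ih =>
        rw [pow_succ]
        refine ⟨?_, ?_, ?_⟩
        · have := hmul 0 0 x hxA _ ih.1
          simpa using this
        · rw [← mul_assoc, ih.2.1]
        · rw [mul_assoc, hxu]
    have htrx : x.trace ≠ 0 := by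
      have h1 : x.trace = (b * L * e).trace := by
        rw [hxe, mul_assoc, mul_assoc, Matrix.trace_mul_comm, mul_assoc, mul_assoc, hee,
          ← mul_assoc]
      rw [h1]
      exact htrb
    obtain ⟨g, hg1, hg2⟩ := hFIT K m x (fun k => htr _ (hxk k).1 (hxk k).2.1 (hxk k).2.2) htrx
    obtain ⟨e1, he1⟩ : ∃ e1, e1 = x * Polynomial.aeval x g := ⟨_, rfl⟩
    rw [← he1] at hg1 hg2
    have hcomm : Polynomial.aeval x g * x = x * Polynomial.aeval x g := by
      have h1 : Polynomial.aeval x (g * Polynomial.X) = Polynomial.aeval x (Polynomial.X * g) := by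
        rw [mul_comm]
      rw [map_mul, map_mul, Polynomial.aeval_X] at h1
      exact h1
    have hgy : Polynomial.aeval x g * y ∈ A (-1) ∧
        u * (Polynomial.aeval x g * y) = Polynomial.aeval x g * y := by
      clear he1 hg1 hg2 hcomm
      induction g using Polynomial.induction_on' with
      | add f g hf hg =>
        rw [map_add, add_mul]
        refine ⟨Submodule.add_mem _ hf.1 hg.1, ?_⟩
        rw [mul_add, hf.2, hg.2]
      | monomial n q =>
        have h1 : x ^ n * y ∈ A (-1) ∧ u * (x ^ n * y) = x ^ n * y := by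
          induction n with
          | zero => rw [pow_zero, one_mul]; exact ⟨hyA, huy⟩
          | succ n ih =>
            rw [pow_succ', mul_assoc]
            refine ⟨?_, ?_⟩
            · have := hmul (-1) 0 _ ih.1 x hxA
              simpa using this
            · rw [← mul_assoc, hux]
        have h2 : Polynomial.aeval x (Polynomial.monomial n q) * y = q • (x ^ n * y) := by
          rw [Polynomial.aeval_monomial, mul_assoc, Algebra.smul_def]
        rw [h2]
        refine ⟨Submodule.smul_mem _ _ h1.1, ?_⟩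
        rw [mul_smul_comm, h1.2]
    have hEe1 : E * e1 = 0 := by rw [he1, ← mul_assoc, hEx, zero_mul]
    have he1E : e1 * E = 0 := by rw [he1, ← hcomm, mul_assoc, hxE, mul_zero]
    have hE2 : (a1 + Polynomial.aeval x g * y) * L * u = E + e1 := by
      rw [add_mul, add_mul, ha1E, mul_assoc, mul_assoc, ← mul_assoc y, ← hx, hcomm, ← he1]
    refine ⟨a1 + Polynomial.aeval x g * y, Submodule.add_mem _ ha1A hgy.1, ?_, ?_, ?_⟩
    · rw [mul_add, hua1, hgy.2]
    · rw [hE2, add_mul, mul_add, mul_add, hidem, hEe1, he1E, hg1, add_zero, zero_add]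
    · refine rank_lt ?_ hEe1 hidem hg2 ?_
      · rw [hE2, add_mul, hidem, he1E, add_zero]
      · rw [hE2, add_mul, hEe1, hg1, zero_add]
  by_contra hcon
  push Not at hcon
  have key : ∀ n : ℕ, ∃ α ∈ A (-1), u * α = α ∧ (α * L * u) * (α * L * u) = α * L * u ∧
      n ≤ (α * L * u).rank := by
    intro n
    induction n with
    | zero => exact ⟨0, Submodule.zero_mem _, by simp, by simp, Nat.zero_le _⟩
    | succ n ih =>
      obtain ⟨α, h1, h2, h3, h4⟩ := ih
      obtain ⟨α', h5, h6, h7, h8⟩ := step α h1 h2 h3 (hcon α h1)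
      exact ⟨α', h5, h6, h7, by omega⟩
  obtain ⟨α, -, -, -, h⟩ := key (m + 1)
  have := Matrix.rank_le_width (α * L * u)
  omega

end Pool.Agent.H42.CB
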